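import Pool.Agent.LibSS99.A

set_option autoImplicit false

namespace Pool.Agent.LibSS99

open Finset Polynomial

variable {K : Type*} [Field K] {M : ℕ}

/-- the elementary symmetric functions of `α` -/
noncomputable def ee (α : Fin M → K) (k : ℕ) : K :=
  ∑ t ∈ powersetCard k (univ : Finset (Fin M)), ∏ i ∈ t, α i

lemma ee_aeval (α : Fin M → K) (k : ℕ) :
    MvPolynomial.aeval α (MvPolynomial.esymm (Fin M) ℤ k) = ee α k := by
  simp [MvPolynomial.esymm, ee]

lemma ee_multiset (α : Fin M → K) (k : ℕ) :
    ((univ : Finset (Fin M)).val.map α).esymm k = ee α k := by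
  rw [Finset.esymm_map_val]
  rfl

lemma newton (α : Fin M → K) (k : ℕ) :
    (k : K) * ee α k = (-1) ^ (k + 1) *
      ∑ a ∈ antidiagonal k with a.1 < k, (-1) ^ a.1 * ee α a.1 * ∑ i, α i ^ a.2 := by
  have h := congrArg (MvPolynomial.aeval α) (MvPolynomial.mul_esymm_eq_sum (Fin M) ℤ k)
  simp only [map_mul, map_natCast, ee_aeval, map_pow, map_neg, map_one, map_sum,
    MvPolynomial.psum, MvPolynomial.aeval_X] at h
  exact h

lemma int_fact (α : Fin M → K) (h : ∀ r, 0 < r → IsIntegral ℤ (∑ i, α i ^ r)) (k : ℕ) :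
    IsIntegral ℤ ((k.factorial : K) * ee α k) := by
  induction k using Nat.strong_induction_on with
  | _ k ih =>
    rcases Nat.eq_zero_or_pos k with rfl | hk
    · have : ((Nat.factorial 0 : ℕ) : K) * ee α 0 = 1 := by simp [ee]
      rw [this]
      exact isIntegral_one
    · obtain ⟨j, rfl⟩ : ∃ j, k = j + 1 := ⟨k - 1, by omega⟩
      have h1 : (((j + 1).factorial : ℕ) : K) * ee α (j + 1) =
          (-1) ^ (j + 1 + 1) * ∑ a ∈ antidiagonal (j + 1) with a.1 < j + 1,
            (-1) ^ a.1 * ((((j.factorial / a.1.factorial : ℕ) : ℕ) : K) *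
              (((a.1.factorial : ℕ) : K) * ee α a.1)) * ∑ i, α i ^ a.2 := by
        rw [Nat.factorial_succ, Nat.cast_mul, mul_assoc, mul_left_comm, newton α (j + 1),
          mul_left_comm, Finset.mul_sum]
        congr 1
        refine Finset.sum_congr rfl fun a ha => ?_
        have ha1 : a.1 ≤ j := by
          have := (Finset.mem_filter.1 ha).2
          omega
        have h2 : (((j.factorial / a.1.factorial : ℕ) : ℕ) : K) * ((a.1.factorial : ℕ) : K) =
            ((j.factorial : ℕ) : K) := by
          rw [← Nat.cast_mul, Nat.div_mul_cancel (Nat.factorial_dvd_factorial ha1)]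
        rw [← mul_assoc (((j.factorial / a.1.factorial : ℕ) : ℕ) : K), h2]
        ring
      rw [h1]
      have hneg : ∀ n : ℕ, IsIntegral ℤ ((-1 : K) ^ n) := fun n => (isIntegral_one.neg).pow n
      have hnat : ∀ n : ℕ, IsIntegral ℤ ((n : ℕ) : K) := fun n => by
        have := isIntegral_algebraMap (R := ℤ) (A := K) (x := (n : ℤ))
        simpa using this
      refine (hneg _).mul (IsIntegral.sum _ fun a ha => ?_)
      have ha2 := Finset.mem_filter.1 ha
      have ha3 := Finset.HasAntidiagonal.mem_antidiagonal.1 ha2.1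
      exact ((hneg _).mul ((hnat _).mul (ih a.1 (by omega)))).mul (h a.2 (by omega))

lemma ee_smul (c : K) (α : Fin M → K) (k : ℕ) : ee (fun i => c * α i) k = c ^ k * ee α k := by
  unfold ee
  rw [Finset.mul_sum]
  refine Finset.sum_congr rfl fun t ht => ?_
  rw [Finset.prod_mul_distrib, Finset.prod_const, (Finset.mem_powersetCard.1 ht).2]

lemma root_integral (y : Fin M → K) (h : ∀ k, 1 ≤ k → k ≤ M → IsIntegral ℤ (ee y k))
    (i : Fin M) : IsIntegral ℤ (y i) := by
  let A := integralClosure ℤ K
  let s : Multiset K := (univ : Finset (Fin M)).val.map y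
  let p : K[X] := (s.map fun t => X - C t).prod
  have hs : Multiset.card s = M := by simp [s]
  have hpm : p.Monic := Polynomial.monic_multisetProd_X_sub_C s
  have hpd : p.natDegree = M := by
    rw [Polynomial.natDegree_multiset_prod_X_sub_C_eq_card, hs]
  have hl : p ∈ Polynomial.lifts (algebraMap A K) := by
    rw [Polynomial.lifts_iff_coeff_lifts]
    intro n
    have : IsIntegral ℤ (p.coeff n) := by
      rcases lt_trichotomy n M with hn | hn | hn
      · rw [Multiset.prod_X_sub_C_coeff s (by rw [hs]; omega), hs, ee_multiset]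
        exact ((isIntegral_one.neg).pow _).mul (h _ (by omega) (by omega))
      · have h1 : p.coeff n = 1 := by
          have h2 := hpm.coeff_natDegree
          rwa [hpd, ← hn] at h2
        rw [h1]
        exact isIntegral_one
      · rw [Polynomial.coeff_eq_zero_of_natDegree_lt (by omega)]
        exact isIntegral_zero
    exact ⟨⟨p.coeff n, this⟩, rfl⟩
  obtain ⟨q, hq, -, hqm⟩ := Polynomial.lifts_and_degree_eq_and_monic hl hpm
  have hA : IsIntegral A (y i) := by
    refine ⟨q, hqm, ?_⟩
    rw [← Polynomial.eval_map, hq]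
    change p.eval (y i) = 0
    rw [Polynomial.eval_multiset_prod]
    refine Multiset.prod_eq_zero ?_
    rw [Multiset.map_map]
    refine Multiset.mem_map.2 ⟨y i, Multiset.mem_map.2 ⟨i, Finset.mem_univ_val i, rfl⟩, ?_⟩
    simp
  exact isIntegral_trans (R := ℤ) (A := A) (y i) hA

/-- Numbers all of whose power sums are algebraic integers are algebraic integers. -/
theorem integral_of_psum [CharZero K] (α : Fin M → K)
    (h : ∀ r, 0 < r → IsIntegral ℤ (∑ i, α i ^ r)) (i : Fin M) : IsIntegral ℤ (α i) := by
  have hc : ((M.factorial : ℕ) : ℤ) ≠ 0 := by exact_mod_cast M.factorial_ne_zero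
  refine isIntegral_of_forall_pow hc fun m => ?_
  have hnat : ∀ n : ℕ, IsIntegral ℤ ((n : ℕ) : K) := fun n => by
    have := isIntegral_algebraMap (R := ℤ) (A := K) (x := (n : ℤ))
    simpa using this
  rcases Nat.eq_zero_or_pos m with rfl | hm
  · rw [pow_zero, mul_one]
    exact_mod_cast hnat _
  · have h1 : ∀ r, 0 < r → IsIntegral ℤ (∑ i, (α i ^ m) ^ r) := by
      intro r hr
      have := h (m * r) (Nat.mul_pos hm hr)
      simpa only [pow_mul] using this
    have h2 := root_integral (fun i => ((M.factorial : ℕ) : K) * α i ^ m) ?_ i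
    · simpa using h2
    · intro k hk1 hkM
      rw [ee_smul]
      have h3 : ((M.factorial : ℕ) : K) ^ k * ee (fun i => α i ^ m) k =
          ((M.factorial : ℕ) : K) ^ (k - 1) * (((M.factorial / k.factorial : ℕ) : ℕ) : K) *
            (((k.factorial : ℕ) : K) * ee (fun i => α i ^ m) k) := by
        have h4 : (((M.factorial / k.factorial : ℕ) : ℕ) : K) * ((k.factorial : ℕ) : K) =
            ((M.factorial : ℕ) : K) := by
          rw [← Nat.cast_mul, Nat.div_mul_cancel (Nat.factorial_dvd_factorial hkM)]
        rw [← mul_assoc, mul_assoc (((M.factorial : ℕ) : K) ^ (k - 1)), h4, ← pow_succ,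
          Nat.sub_add_cancel hk1]
      rw [h3]
      exact (((hnat _).pow _).mul (hnat _)).mul (int_fact _ h1 k)

end Pool.Agent.LibSS99
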