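import Mathlib

set_option autoImplicit false

namespace Pool.Agent.LibSS99

open Finset Polynomial

/-- If `M` elements of a field have the same power sums as the elements of a set of `M` nonzero
elements, then they are different. -/
theorem injective_of_psum {L : Type*} [Field L] {M : ℕ} (a : Fin M → L) (Ω : Finset L)
    (h0 : (0 : L) ∉ Ω) (hM : #Ω = M)
    (h : ∀ r, 0 < r → ∑ i, a i ^ r = ∑ w ∈ Ω, w ^ r) : Function.Injective a := by
  classical
  have hP : ∀ P : L[X], ∑ i, (X * P).eval (a i) = ∑ w ∈ Ω, (X * P).eval w := by
    intro P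
    induction P using Polynomial.induction_on' with
    | add p q hp hq => simp only [mul_add, eval_add, Finset.sum_add_distrib, hp, hq]
    | monomial n c =>
      have h1 : ∀ x : L, (X * monomial n c).eval x = c * x ^ (n + 1) := by
        intro x
        simp only [eval_mul, eval_X, eval_monomial]
        ring
      simp only [h1, ← Finset.mul_sum]
      rw [h (n + 1) (Nat.succ_pos n)]
  have hsub : Ω ⊆ univ.image a := by
    intro w hw
    by_contra hwa
    let T : Finset L := (univ.image a ∪ Ω).erase w
    let P : L[X] := ∏ x ∈ T, (X - C x)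
    have h1 := hP P
    have h2 : ∀ x ∈ T, (X * P).eval x = 0 := by
      intro x hx
      rw [eval_mul, eval_prod, Finset.prod_eq_zero hx (by simp), mul_zero]
    have h3 : ∑ i, (X * P).eval (a i) = 0 := by
      refine Finset.sum_eq_zero fun i _ => h2 _ ?_
      refine Finset.mem_erase.2 ⟨?_, Finset.mem_union_left _ (Finset.mem_image_of_mem a (mem_univ i))⟩
      rintro rfl
      exact hwa (Finset.mem_image_of_mem a (mem_univ i))
    have h4 : ∑ v ∈ Ω, (X * P).eval v = (X * P).eval w := by
      refine Finset.sum_eq_single w (fun v hv hvw => h2 _ ?_) (fun h => absurd hw h)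
      exact Finset.mem_erase.2 ⟨hvw, Finset.mem_union_right _ hv⟩
    rw [h3, h4, eval_mul, eval_X, eval_prod, eq_comm, mul_eq_zero] at h1
    rcases h1 with h1 | h1
    · exact h0 (h1 ▸ hw)
    · obtain ⟨x, hx, hx'⟩ := Finset.prod_eq_zero_iff.1 h1
      rw [eval_sub, eval_X, eval_C, sub_eq_zero] at hx'
      exact (Finset.mem_erase.1 hx).1 hx'.symm
  have hcard : #(univ.image a) = #(univ : Finset (Fin M)) := by
    refine le_antisymm Finset.card_image_le ?_
    calc #(univ : Finset (Fin M)) = M := by rw [Finset.card_univ, Fintype.card_fin]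
      _ = #Ω := hM.symm
      _ ≤ #(univ.image a) := Finset.card_le_card hsub
  have hinj := Finset.card_image_iff.1 hcard
  exact fun x y hxy => hinj (Finset.mem_coe.2 (mem_univ x)) (Finset.mem_coe.2 (mem_univ y)) hxy

end Pool.Agent.LibSS99
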