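import Mathlib

set_option autoImplicit false

namespace Pool.Agent.LibSS99

open Finset

universe u

/-- There is a homomorphism from the algebraic integers of `K` to an algebraically closed field
of characteristic `l`. -/
theorem exists_reduction (K : Type u) [Field K] [CharZero K] (l : ℕ) [Fact l.Prime] :
    ∃ (L : Type u) (_ : Field L) (_ : CharP L l) (_ : IsAlgClosed L),
      Nonempty (integralClosure ℤ K →+* L) := by
  let A := integralClosure ℤ K
  have hinj : Function.Injective (algebraMap ℤ A) := (algebraMap ℤ A).injective_int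
  have hmax : (Ideal.span {(l : ℤ)}).IsMaximal :=
    Int.ideal_span_isMaximal_of_prime l
  obtain ⟨Q, hQ, hQc⟩ := Ideal.exists_ideal_over_maximal_of_isIntegral (S := A)
    (Ideal.span {(l : ℤ)}) (by
      rw [(RingHom.injective_iff_ker_eq_bot _).1 hinj]
      exact bot_le)
  letI : Field (A ⧸ Q) := Ideal.Quotient.field Q
  have hlQ : (Ideal.Quotient.mk Q) ((l : ℕ) : A) = 0 := by
    rw [Ideal.Quotient.eq_zero_iff_mem]
    have h1 : (l : ℤ) ∈ Q.comap (algebraMap ℤ A) := by
      rw [hQc]
      exact Ideal.mem_span_singleton_self _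
    have h2 := Ideal.mem_comap.1 h1
    simpa using h2
  have hchar : CharP (A ⧸ Q) l := by
    refine (CharP.charP_iff_prime_eq_zero (Fact.out : l.Prime)).2 ?_
    simpa using hlQ
  refine ⟨AlgebraicClosure (A ⧸ Q), inferInstance, inferInstance, inferInstance, ⟨?_⟩⟩
  exact (algebraMap (A ⧸ Q) (AlgebraicClosure (A ⧸ Q))).comp (Ideal.Quotient.mk Q)

end Pool.Agent.LibSS99
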