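import Mathlib

set_option autoImplicit false

namespace Pool.Agent.LibSS99

open Finset Polynomial

variable {F E : Type*} [Field F] [Finite F] [Field E] [Algebra F E]

/-- A root `x` of an irreducible polynomial `D` over `F` satisfies `x ^ (q ^ n) = x` if and only
if the degree of `D` divides `n`. -/
lemma pow_card_eq_iff {D : F[X]} (hD : Irreducible D) {x : E} (hx : aeval x D = 0) (n : ℕ) :
    x ^ (Nat.card F ^ n) = x ↔ D.natDegree ∣ n := by
  rw [hD.natDegree_dvd_iff_dvd_X_pow_card_pow_sub_X, ← hD.dvd_iff_aeval_eq_zero hx]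
  simp [sub_eq_zero]

/-- The map `x ↦ x ^ (q ^ n)` is additive. -/
lemma sum_pow_card {ι : Type*} (s : Finset ι) (x : ι → E) (n : ℕ) :
    (∑ i ∈ s, x i) ^ (Nat.card F ^ n) = ∑ i ∈ s, x i ^ (Nat.card F ^ n) := by
  cases nonempty_fintype F
  rw [Nat.card_eq_fintype_card]
  obtain ⟨p, hp⟩ := CharP.exists F
  have : Fact p.Prime := ⟨CharP.char_is_prime F p⟩
  have : CharP E p := charP_of_injective_algebraMap (algebraMap F E).injective p
  obtain ⟨m, -, hm⟩ := FiniteField.card F p
  rw [hm, ← pow_mul]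
  exact sum_pow_char_pow p _ s x

lemma neg_pow_card (x : E) (n : ℕ) : (-x) ^ (Nat.card F ^ n) = -(x ^ (Nat.card F ^ n)) := by
  have h := sum_pow_card (F := F) (univ : Finset (Fin 2)) ![x, -x] n
  simp only [Fin.sum_univ_two, Matrix.cons_val_zero, Matrix.cons_val_one,
    Matrix.cons_val_fin_one, add_neg_cancel] at h
  rw [zero_pow (pow_ne_zero _ Nat.card_pos.ne')] at h
  exact eq_neg_of_add_eq_zero_right h.symm

/-- Roots of irreducible polynomials of pairwise coprime degrees, not all `1`, do not have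
sum `0`. -/
theorem sum_ne_zero_of_coprime {ι : Type*} [Fintype ι] [DecidableEq ι] (D : ι → F[X])
    (hirr : ∀ i, Irreducible (D i))
    (hcop : ∀ i j, i ≠ j → Nat.Coprime (D i).natDegree (D j).natDegree)
    (hne : ∃ i, (D i).natDegree ≠ 1) (x : ι → E) (hx : ∀ i, aeval (x i) (D i) = 0) :
    ∑ i, x i ≠ 0 := by
  intro h0
  obtain ⟨j, hj⟩ := hne
  let N := ∏ i ∈ univ.erase j, (D i).natDegree
  have h1 : x j = -∑ i ∈ univ.erase j, x i := by
    rw [← Finset.add_sum_erase _ _ (mem_univ j)] at h0
    exact eq_neg_of_add_eq_zero_left h0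
  have h2 : x j ^ (Nat.card F ^ N) = x j := by
    rw [h1, neg_pow_card, sum_pow_card]
    congr 1
    refine Finset.sum_congr rfl fun i hi => ?_
    exact (pow_card_eq_iff (hirr i) (hx i) N).2 (Finset.dvd_prod_of_mem _ hi)
  have h3 : (D j).natDegree ∣ N := (pow_card_eq_iff (hirr j) (hx j) N).1 h2
  have h4 : Nat.Coprime (D j).natDegree N :=
    Nat.Coprime.prod_right fun i hi => hcop j i (Finset.ne_of_mem_erase hi).symm
  exact hj (Nat.Coprime.eq_one_of_dvd h4 h3)

/-- The number of the roots in `E` of an irreducible polynomial over the finite field `F`. -/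
theorem card_roots [Finite E] [DecidableEq E] {D : F[X]} (hD : Irreducible D) :
    #((D.aroots E).toFinset) = if D.natDegree ∣ Module.finrank F E then D.natDegree else 0 := by
  have hD0 : D ≠ 0 := hD.ne_zero
  have : Fact (Irreducible D) := ⟨hD⟩
  have hfr : Module.finrank F (AdjoinRoot D) = D.natDegree :=
    (AdjoinRoot.powerBasis hD0).finrank
  have h1 : Nat.card (AdjoinRoot D →ₐ[F] E) = #((D.aroots E).toFinset) := by
    rw [Nat.card_congr (AdjoinRoot.equiv E F D hD0)]
    rw [Nat.card_congr (Equiv.subtypeEquivRight (fun x => Multiset.mem_toFinset.symm)),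
      Nat.card_eq_fintype_card, Fintype.card_coe]
  rw [← h1]
  split_ifs with h
  · rw [← hfr]
    refine FiniteField.natCard_algHom_of_finrank_dvd ?_
    rw [hfr]
    exact h
  · rw [Nat.card_eq_zero]
    left
    rw [← not_nonempty_iff]
    intro hne
    exact h (hfr ▸ FiniteField.nonempty_algHom_iff_finrank_dvd.1 hne)

end Pool.Agent.LibSS99
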