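import Pool.Agent.LibSS99.G

set_option autoImplicit false

namespace Pool.Agent.LibSS99

open Finset Polynomial

section

variable {ι E L : Type*} [Fintype ι] [DecidableEq ι] [Field E] [Fintype E] [DecidableEq E]
  [CommRing L]

lemma sum_free (g : E → L) (hg : ∑ t, g t = 0) (b : ι → E → L) (T : Finset ι) {j : ι}
    (hj : j ∉ T) : ∑ y : ι → E, g (-∑ i, y i) * ∏ i ∈ T, b i (y i) = 0 := by
  rw [← (Equiv.funSplitAt j E).symm.sum_comp, Fintype.sum_prod_type_right]
  have hval : ∀ (y : {i // i ≠ j} → E) (a : E) (i : ι) (hi : i ≠ j),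
      (Equiv.funSplitAt j E).symm (a, y) i = y ⟨i, hi⟩ := by
    intro y a i hi
    simp [Equiv.funSplitAt, Equiv.piSplitAt, hi]
  have hvalj : ∀ (y : {i // i ≠ j} → E) (a : E), (Equiv.funSplitAt j E).symm (a, y) j = a := by
    intro y a
    simp [Equiv.funSplitAt, Equiv.piSplitAt]
  refine Finset.sum_eq_zero fun y _ => ?_
  have h2 : ∀ a : E, ∑ i, (Equiv.funSplitAt j E).symm (a, y) i = a + ∑ i, y i := by
    intro a
    rw [Fintype.sum_eq_add_sum_subtype_ne _ j, hvalj]
    congr 1
    exact Finset.sum_congr rfl fun i _ => hval y a i.1 i.2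
  have h3 : ∀ a : E, ∏ i ∈ T, b i ((Equiv.funSplitAt j E).symm (a, y) i) =
      ∏ i ∈ T, b i ((Equiv.funSplitAt j E).symm (0, y) i) := by
    intro a
    refine Finset.prod_congr rfl fun i hi => ?_
    have hij : i ≠ j := fun h => hj (h ▸ hi)
    rw [hval y a i hij, hval y 0 i hij]
  simp only [h2, h3]
  rw [← Finset.sum_mul]
  have h4 : ∑ a : E, g (-(a + ∑ i, y i)) = ∑ t, g t :=
    ((Equiv.addRight (∑ i, y i)).trans (Equiv.neg E)).sum_comp g
  rw [h4, hg, zero_mul]

/-- If `∑ g = 0`, the sum of `g (-∑ y i)` over the complement of the hyperplanes `y i = θ`,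
`θ ∈ R i`, is the sum over the points of intersection of these hyperplanes. -/
theorem compl_sum (g : E → L) (hg : ∑ t, g t = 0) (R : ι → Finset E) :
    ∑ y : ι → E, g (-∑ i, y i) * ∏ i, (if y i ∈ R i then (0 : L) else 1) =
      (-1) ^ Fintype.card ι * ∑ y ∈ Fintype.piFinset R, g (-∑ i, y i) := by
  let b : ι → E → L := fun i t => if t ∈ R i then 1 else 0
  have h1 : ∀ y : ι → E, g (-∑ i, y i) * ∏ i, (if y i ∈ R i then (0 : L) else 1) =
      ∑ T : Finset ι, (-1) ^ #T * (g (-∑ i, y i) * ∏ i ∈ T, b i (y i)) := by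
    intro y
    have h2 : ∀ i, (if y i ∈ R i then (0 : L) else 1) = -b i (y i) + 1 := by
      intro i
      by_cases hi : y i ∈ R i <;> simp [b, hi]
    rw [Finset.prod_congr rfl fun i _ => h2 i, Fintype.prod_add, Finset.mul_sum]
    refine Finset.sum_congr rfl fun T _ => ?_
    rw [Finset.prod_const_one, mul_one, Finset.prod_neg]
    ring
  simp only [h1]
  rw [Finset.sum_comm]
  rw [Finset.sum_eq_single (univ : Finset ι)]
  · rw [← Finset.mul_sum, Finset.card_univ]
    congr 1
    rw [← Finset.sum_filter_add_sum_filter_not univ (fun y => y ∈ Fintype.piFinset R)]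
    have h5 : ∑ y : ι → E with y ∉ Fintype.piFinset R, g (-∑ i, y i) * ∏ i, b i (y i) = 0 := by
      refine Finset.sum_eq_zero fun y hy => ?_
      have hy2 := (Finset.mem_filter.1 hy).2
      rw [Fintype.mem_piFinset] at hy2
      push Not at hy2
      obtain ⟨i, hi⟩ := hy2
      rw [Finset.prod_eq_zero (mem_univ i) (by simp [b, hi]), mul_zero]
    rw [h5, add_zero]
    have h6 : (univ.filter fun y : ι → E => y ∈ Fintype.piFinset R) = Fintype.piFinset R := by
      ext y
      simp
    rw [h6]
    refine Finset.sum_congr rfl fun y hy => ?_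
    rw [Finset.prod_eq_one, mul_one]
    intro i _
    simp [b, Fintype.mem_piFinset.1 hy i]
  · intro T _ hT
    obtain ⟨j, hj⟩ : ∃ j, j ∉ T := by
      by_contra hcon
      push Not at hcon
      exact hT (Finset.eq_univ_iff_forall.2 hcon)
    rw [← Finset.mul_sum, sum_free g hg b T hj, mul_zero]
  · intro h
    exact absurd (mem_univ _) h

end

section

variable {F E : Type*} [Field F] [Fintype F] [Field E] [Algebra F E] [Finite E] [DecidableEq E]

/-- The tuples of roots. -/
noncomputable def roo {ι : Type*} [Fintype ι] [DecidableEq ι] (D : ι → F[X]) (E : Type*) [Field E]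
    [Algebra F E] [DecidableEq E] : Finset (ι → E) :=
  Fintype.piFinset fun i => ((D i).aroots E).toFinset

lemma mem_roo {ι : Type*} [Fintype ι] [DecidableEq ι] {D : ι → F[X]} (hirr : ∀ i, Irreducible (D i))
    {θ : ι → E} : θ ∈ roo D E ↔ ∀ i, aeval (θ i) (D i) = 0 := by
  unfold roo
  simp only [Fintype.mem_piFinset, Multiset.mem_toFinset, mem_aroots]
  exact ⟨fun h i => (h i).2, fun h i => ⟨(hirr i).ne_zero, h i⟩⟩

lemma card_roo {ι : Type*} [Fintype ι] [DecidableEq ι] {D : ι → F[X]}
    (hirr : ∀ i, Irreducible (D i)) :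
    #(roo D E) = ∏ i, if (D i).natDegree ∣ Module.finrank F E then (D i).natDegree else 0 := by
  unfold roo
  rw [Fintype.card_piFinset]
  exact Finset.prod_congr rfl fun i _ => card_roots (hirr i)

lemma aeval_pow_card (P : F[X]) (t : E) (j : ℕ) :
    aeval (t ^ (Fintype.card F ^ j)) P = (aeval t P) ^ (Fintype.card F ^ j) := by
  induction j with
  | zero => simp
  | succ j ih =>
    have h1 : ∀ s : E, aeval (s ^ Fintype.card F) P = (aeval s P) ^ Fintype.card F := by
      intro s
      have h3 := Polynomial.aeval_algHom_apply (FiniteField.frobeniusAlgHom F E) s P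
      simpa using h3
    rw [pow_succ, pow_mul, h1, ih, ← pow_mul]

/-- Frobenius acts transitively on the tuples of roots of irreducible polynomials of coprime
degrees. -/
theorem exists_frob {ι : Type*} [Fintype ι] [DecidableEq ι] {D : ι → F[X]}
    (hirr : ∀ i, Irreducible (D i))
    (hcop : ∀ i j, i ≠ j → Nat.Coprime (D i).natDegree (D j).natDegree)
    {θ θ' : ι → E} (hθ : θ ∈ roo D E) (hθ' : θ' ∈ roo D E) :
    ∃ j : ℕ, ∀ i, θ' i = θ i ^ (Fintype.card F ^ j) := by
  classical
  let n := ∏ i, (D i).natDegree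
  let f : ℕ → ι → E := fun j i => θ i ^ (Fintype.card F ^ j)
  have hmem : ∀ j, f j ∈ roo D E := by
    intro j
    rw [mem_roo hirr] at hθ ⊢
    intro i
    change aeval (θ i ^ (Fintype.card F ^ j)) (D i) = 0
    rw [aeval_pow_card, hθ i, zero_pow (pow_ne_zero _ Fintype.card_ne_zero)]
  have hdvd : ∀ j, f j = θ → n ∣ j := by
    intro j hj
    refine Finset.prod_dvd_of_isRelPrime (fun a _ b _ hab => Nat.coprime_iff_isRelPrime.1 (hcop a b hab))
      fun i _ => ?_
    have h1 := (pow_card_eq_iff (hirr i) ((mem_roo hirr).1 hθ i) j).1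
    rw [Nat.card_eq_fintype_card] at h1
    exact h1 (congrFun hj i)
  have hinj : Set.InjOn f (range n) := by
    have key : ∀ j k, j < k → k < n → f j ≠ f k := by
      intro j k hjk hk h
      have h1 : f (k - j) = θ := by
        funext i
        have h2 := congrFun h i
        change θ i ^ (Fintype.card F ^ j) = θ i ^ (Fintype.card F ^ k) at h2
        have h3 : θ i ^ (Fintype.card F ^ k) =
            (θ i ^ (Fintype.card F ^ (k - j))) ^ (Fintype.card F ^ j) := by
          rw [← pow_mul, ← pow_add, Nat.sub_add_cancel hjk.le]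
        rw [h3] at h2
        have h4 : θ i - θ i ^ (Fintype.card F ^ (k - j)) = 0 := by
          have h5 := sum_pow_card (F := F) (univ : Finset (Fin 2))
            ![θ i, -(θ i ^ (Fintype.card F ^ (k - j)))] j
          simp only [Fin.sum_univ_two, Matrix.cons_val_zero, Matrix.cons_val_one,
            Matrix.cons_val_fin_one, Nat.card_eq_fintype_card] at h5
          have h6 := neg_pow_card (F := F) (θ i ^ (Fintype.card F ^ (k - j))) j
          rw [Nat.card_eq_fintype_card] at h6
          rw [h6, ← h2, add_neg_cancel] at h5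
          rw [sub_eq_add_neg]
          exact (pow_eq_zero_iff (pow_ne_zero _ Fintype.card_ne_zero)).1 h5
        exact (sub_eq_zero.1 h4).symm
      have h7 := Nat.le_of_dvd (by omega) (hdvd _ h1)
      omega
    intro j hj k hk h
    have hj' := Finset.mem_range.1 (Finset.mem_coe.1 hj)
    have hk' := Finset.mem_range.1 (Finset.mem_coe.1 hk)
    rcases lt_trichotomy j k with h1 | h1 | h1
    · exact absurd h (key j k h1 hk')
    · exact h1
    · exact absurd h.symm (key k j h1 hj')
  have himg : (range n).image f = roo D E := by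
    refine Finset.eq_of_subset_of_card_le ?_ ?_
    · intro x hx
      obtain ⟨j, -, rfl⟩ := Finset.mem_image.1 hx
      exact hmem j
    · rw [Finset.card_image_of_injOn hinj, Finset.card_range, card_roo hirr]
      refine Finset.prod_le_prod' fun i _ => ?_
      split_ifs <;> omega
  rw [← himg] at hθ'
  obtain ⟨j, -, hj⟩ := Finset.mem_image.1 hθ'
  exact ⟨j, fun i => by rw [← hj]⟩

/-- All tuples of roots give the same norm. -/
theorem norm_eq {ι : Type*} [Fintype ι] [DecidableEq ι] {D : ι → F[X]} (P : F[X])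
    (hirr : ∀ i, Irreducible (D i))
    (hcop : ∀ i j, i ≠ j → Nat.Coprime (D i).natDegree (D j).natDegree)
    {θ θ' : ι → E} (hθ : θ ∈ roo D E) (hθ' : θ' ∈ roo D E) :
    Algebra.norm F (aeval (-∑ i, θ' i) P) = Algebra.norm F (aeval (-∑ i, θ i) P) := by
  obtain ⟨j, hj⟩ := exists_frob hirr hcop hθ hθ'
  have h1 : -∑ i, θ' i = (-∑ i, θ i) ^ (Fintype.card F ^ j) := by
    have h2 := sum_pow_card (F := F) univ θ j
    have h3 := neg_pow_card (F := F) (∑ i, θ i) j
    rw [Nat.card_eq_fintype_card] at h2 h3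
    rw [h3, h2]
    congr 1
    exact Finset.sum_congr rfl fun i _ => hj i
  rw [h1, aeval_pow_card, map_pow, FiniteField.pow_card_pow]

end

end Pool.Agent.LibSS99
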