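import Pool.Agent.LibSS99.E
import Pool.Agent.LibSS99.G
import Pool.Agent.LibSS99.P

set_option autoImplicit false

namespace Pool.Agent.LibSS99

open Finset Polynomial

section

variable {F K L : Type*} [Field F] [Fintype F] [Field K] [CharZero K] [Field L] {l : ℕ}
  [Fact l.Prime] [CharP L l]

omit [CharZero K] in
/-- The values of a character are algebraic integers. -/
lemma isIntegral_char (χ : MulChar F K) (a : F) : IsIntegral ℤ (χ a) := by
  by_cases ha : a = 0
  · rw [ha, MulChar.map_zero]
    exact isIntegral_zero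
  · have hpos : 0 < Fintype.card F - 1 := Nat.sub_pos_of_lt Fintype.one_lt_card
    have h1 : χ a ^ (Fintype.card F - 1) = 1 := by
      rw [← map_pow, FiniteField.pow_card_sub_one_eq_one a ha, map_one]
    exact IsIntegral.of_pow hpos (h1 ▸ isIntegral_one)

/-- The values of a character, as algebraic integers. -/
noncomputable def chi (χ : MulChar F K) (a : F) : integralClosure ℤ K :=
  ⟨χ a, isIntegral_char χ a⟩

omit [CharZero K] in
lemma chi_zero (χ : MulChar F K) : chi χ 0 = 0 := Subtype.ext (MulChar.map_zero χ)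

omit [CharZero K] in
lemma chi_one (χ : MulChar F K) : chi χ 1 = 1 := Subtype.ext (map_one χ)

omit [CharZero K] in
lemma chi_mul (χ : MulChar F K) (a b : F) : chi χ (a * b) = chi χ a * chi χ b :=
  Subtype.ext (map_mul χ a b)

omit [CharZero K] in
lemma chi_pow (χ : MulChar F K) (a : F) (n : ℕ) : chi χ (a ^ n) = chi χ a ^ n :=
  Subtype.ext (map_pow χ a n)

omit [CharZero K] in
lemma chi_isUnit (χ : MulChar F K) {a : F} (ha : a ≠ 0) : IsUnit (chi χ a) := by
  refine IsUnit.of_mul_eq_one (chi χ a⁻¹) ?_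
  rw [← chi_mul, mul_inv_cancel₀ ha, chi_one]

omit [CharZero K] in
lemma red_chi (φ : integralClosure ℤ K →+* L) {χ : MulChar F K} {e : ℕ} (hχ : χ ^ (l ^ e) = 1)
    {a : F} (ha : a ≠ 0) : φ (chi χ a) = 1 := by
  have hl : 0 < l ^ e := pow_pos (Fact.out : l.Prime).pos e
  have h1 : χ a ^ (l ^ e) = 1 := by
    rw [← MulChar.pow_apply' χ hl.ne', hχ, MulChar.one_apply (Ne.isUnit ha)]
  have h2 : (chi χ a) ^ (l ^ e) = 1 := Subtype.ext (by simpa [chi] using h1)
  have h3 : φ (chi χ a) ^ (l ^ e) = 1 := by rw [← map_pow, h2, map_one]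
  have h4 : (φ (chi χ a) - 1) ^ (l ^ e) = 0 := by
    rw [sub_pow_char_pow, h3, one_pow, sub_self]
  exact sub_eq_zero.1 (pow_eq_zero_iff hl.ne' |>.1 h4)

omit [CharZero K] in
/-- A field with a nontrivial character of order a power of `l` has order `1` modulo `l`. -/
lemma card_cast_eq_one {χ : MulChar F K} {e : ℕ} (hχ : χ ^ (l ^ e) = 1) (h1 : χ ≠ 1) :
    (Fintype.card F : L) = 1 := by
  classical
  have hdvd : l ∣ Fintype.card F - 1 := by
    by_contra hnot
    apply h1
    have hcop : Nat.Coprime (Fintype.card F - 1) (l ^ e) :=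
      (((Fact.out : l.Prime).coprime_iff_not_dvd.2 hnot).symm).pow_right e
    ext u
    have hl : 0 < l ^ e := pow_pos (Fact.out : l.Prime).pos e
    have h2 : χ (u : F) ^ (l ^ e) = 1 := by
      rw [← MulChar.pow_apply' χ hl.ne', hχ, MulChar.one_apply u.isUnit]
    have h3 : χ (u : F) ^ (Fintype.card F - 1) = 1 := by
      rw [← map_pow, FiniteField.pow_card_sub_one_eq_one _ u.ne_zero, map_one]
    have h4 : orderOf (χ (u : F)) ∣ 1 := by
      rw [← hcop.gcd_eq_one]
      exact Nat.dvd_gcd (orderOf_dvd_of_pow_eq_one h3) (orderOf_dvd_of_pow_eq_one h2)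
    rw [MulChar.one_apply u.isUnit]
    exact orderOf_eq_one_iff.1 (Nat.dvd_one.1 h4)
  have h5 : Fintype.card F = (Fintype.card F - 1) + 1 := by
    have := Fintype.card_pos (α := F)
    omega
  rw [h5, Nat.cast_add, Nat.cast_one, (CharP.cast_eq_zero_iff L l _).2 hdvd, zero_add]

variable {N : ℕ}

/-- The lift of the sum to the algebraic integers. -/
noncomputable def liftSum (χ : Fin (N + 1) → MulChar F K)
    (D : Fin (N + 1) → F[X]) (E : Type*) [Field E] [Fintype E] [DecidableEq E] [Algebra F E] :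
    integralClosure ℤ K :=
  ∑ x : Fin (N + 1) → E,
    if ∑ i, x i = 0 then ∏ i, chi (χ i) (Algebra.norm F (aeval (x i) (D i))) else 0

omit [CharZero K] in
lemma coe_liftSum (χ : Fin (N + 1) → MulChar F K)
    (D : Fin (N + 1) → F[X]) (E : Type*) [Field E] [Fintype E] [DecidableEq E] [Algebra F E] :
    ((liftSum χ D E : integralClosure ℤ K) : K) = ∑ x : Fin (N + 1) → E,
      if ∑ i, x i = 0 then ∏ i, χ i (Algebra.norm F (aeval (x i) (D i))) else 0 := by
  unfold liftSum
  rw [AddSubmonoidClass.coe_finsetSum]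
  refine Finset.sum_congr rfl fun x _ => ?_
  split_ifs
  · rw [SubmonoidClass.coe_finsetProd]
    rfl
  · rfl

omit [CharZero K] in
/-- The sum modulo `l`. -/
theorem red_liftSum (φ : integralClosure ℤ K →+* L) {χ : Fin (N + 1) → MulChar F K} {e : ℕ}
    (hχ : ∀ i, χ i ^ (l ^ e) = 1) (h1 : χ 0 ≠ 1) (D : Fin (N + 1) → F[X])
    (hirr : ∀ i, Irreducible (D i))
    (hcop : ∀ i j, i ≠ j → Nat.Coprime (D i).natDegree (D j).natDegree)
    (hne : ∃ i, (D i).natDegree ≠ 1)
    (E : Type*) [Field E] [Fintype E] [DecidableEq E] [Algebra F E] :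
    φ ((-1) ^ N * liftSum χ D E) =
      ∏ i, (if (D i).natDegree ∣ Module.finrank F E then ((D i).natDegree : L) else 0) -
      ∏ i, ((if (D i).natDegree ∣ Module.finrank F E then ((D i).natDegree : L) else 0) - 1) := by
  let R : Fin (N + 1) → Finset E := fun i => ((D i).aroots E).toFinset
  have hmem : ∀ i (t : E), t ∈ R i ↔ aeval t (D i) = 0 := by
    intro i t
    simp only [R, Multiset.mem_toFinset, mem_aroots]
    exact ⟨fun h => h.2, fun h => ⟨(hirr i).ne_zero, h⟩⟩
  have hE : (Fintype.card E : L) = 1 := by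
    rw [Module.card_eq_pow_finrank (K := F) (V := E), Nat.cast_pow,
      card_cast_eq_one (hχ 0) h1, one_pow]
  have hR : ∀ x : Fin (N + 1) → E, (∀ i, x i ∈ R i) → ∑ i, x i ≠ 0 := fun x hx =>
    sum_ne_zero_of_coprime D hirr hcop hne x fun i => (hmem i (x i)).1 (hx i)
  have hcount := count_eq (L := L) R hE hR
  have hcard : ∀ i, (#(R i) : L) =
      if (D i).natDegree ∣ Module.finrank F E then ((D i).natDegree : L) else 0 := by
    intro i
    rw [card_roots (hirr i)]
    split_ifs <;> simp
  have hred : φ (liftSum χ D E) =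
      ∑ x : Fin (N + 1) → E, if ∑ i, x i = 0 then
        ∏ i, (if x i ∈ R i then (0 : L) else 1) else 0 := by
    unfold liftSum
    rw [map_sum]
    refine Finset.sum_congr rfl fun x _ => ?_
    split_ifs with hx
    · rw [map_prod]
      refine Finset.prod_congr rfl fun i _ => ?_
      split_ifs with hi
      · rw [(hmem i (x i)).1 hi, Algebra.norm_zero]
        rw [chi_zero, map_zero]
      · refine red_chi φ (hχ i) ?_
        intro h0
        exact hi ((hmem i (x i)).2 (Algebra.norm_eq_zero_iff.1 h0))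
    · rw [map_zero]
  rw [map_mul, map_pow, map_neg, map_one, hred, hcount, Fintype.card_fin]
  simp only [hcard]
  have h6 : ∀ a : Fin (N + 1) → L, (-1 : L) ^ N * (∏ i, (1 - a i) - (-1) ^ (N + 1) * ∏ i, a i) =
      ∏ i, a i - ∏ i, (a i - 1) := by
    intro a
    have h7 : ∏ i, (a i - 1) = (-1) ^ (N + 1) * ∏ i, (1 - a i) := by
      have : ∀ i, a i - 1 = (-1) * (1 - a i) := fun i => by ring
      simp only [this]
      rw [Finset.prod_mul_distrib, Finset.prod_const, Finset.card_univ, Fintype.card_fin]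
    rw [h7]
    have h8 : ((-1 : L) ^ N) * ((-1) ^ N) = 1 := by
      rw [← pow_add, Even.neg_one_pow ⟨N, rfl⟩]
    rw [pow_succ]
    linear_combination (∏ i, a i) * h8
  exact h6 _

omit [CharZero K] in
/-- The sum of a character over a finite extension vanishes modulo `l`. -/
lemma sum_psi (φ : integralClosure ℤ K →+* L) (χ : MulChar F K)
    (E : Type*) [Field E] [Fintype E] [DecidableEq E] [Algebra F E]
    (hE : (Fintype.card E : L) = 1) : ∑ t : E, φ (chi χ (Algebra.norm F t)) = 0 := by
  by_cases h : ∀ a : F, a ≠ 0 → φ (chi χ a) = 1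
  · have h1 : ∀ t : E, φ (chi χ (Algebra.norm F t)) = 1 - if t = 0 then 1 else 0 := by
      intro t
      split_ifs with ht
      · rw [ht, Algebra.norm_zero, chi_zero, map_zero, sub_self]
      · rw [sub_zero]
        exact h _ fun h0 => ht (Algebra.norm_eq_zero_iff.1 h0)
    simp only [h1]
    rw [Finset.sum_sub_distrib]
    simp [hE]
  · push Not at h
    obtain ⟨a, ha, hne⟩ := h
    obtain ⟨u, hu⟩ := FiniteField.norm_surjective F E a
    have hu0 : u ≠ 0 := by
      rintro rfl
      rw [Algebra.norm_zero] at hu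
      exact ha hu.symm
    have h1 : ∑ t : E, φ (chi χ (Algebra.norm F (u * t))) =
        ∑ t : E, φ (chi χ (Algebra.norm F t)) :=
      Equiv.sum_comp (Equiv.mulLeft₀ u hu0) fun t => φ (chi χ (Algebra.norm F t))
    have h2 : ∀ t : E, φ (chi χ (Algebra.norm F (u * t))) =
        φ (chi χ a) * φ (chi χ (Algebra.norm F t)) := by
      intro t
      rw [map_mul, hu, chi_mul, map_mul]
    simp only [h2] at h1
    rw [← Finset.mul_sum] at h1
    have h3 : (φ (chi χ a) - 1) * ∑ t : E, φ (chi χ (Algebra.norm F t)) = 0 := by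
      rw [sub_mul, one_mul, h1, sub_self]
    exact (mul_eq_zero.1 h3).resolve_left (sub_ne_zero.2 hne)

omit [CharZero K] in
/-- The sum modulo `l`, for an arbitrary character at a linear polynomial. -/
theorem red_liftSum_linear (φ : integralClosure ℤ K →+* L) {χ : Fin (N + 1) → MulChar F K} {e : ℕ}
    (hχ : ∀ i : Fin N, χ i.succ ^ (l ^ e) = 1) (D : Fin (N + 1) → F[X])
    (hirr : ∀ i, Irreducible (D i)) (hF : (Fintype.card F : L) = 1)
    (hlin : (D 0).natDegree = 1)
    (E : Type*) [Field E] [Fintype E] [DecidableEq E] [Algebra F E] :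
    φ ((-1) ^ N * liftSum χ D E) =
      ∑ θ ∈ roo (fun i : Fin N => D i.succ) E,
        φ (chi (χ 0) (Algebra.norm F (aeval (-∑ i, θ i) (D 0)))) := by
  let R : Fin N → Finset E := fun i => ((D i.succ).aroots E).toFinset
  have hmem : ∀ i (t : E), t ∈ R i ↔ aeval t (D i.succ) = 0 := by
    intro i t
    simp only [R, Multiset.mem_toFinset, mem_aroots]
    exact ⟨fun h => h.2, fun h => ⟨(hirr i.succ).ne_zero, h⟩⟩
  have hE : (Fintype.card E : L) = 1 := by
    rw [Module.card_eq_pow_finrank (K := F) (V := E), Nat.cast_pow, hF, one_pow]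
  let g : E → L := fun t => φ (chi (χ 0) (Algebra.norm F (aeval t (D 0))))
  have hg : ∑ t, g t = 0 := by
    obtain ⟨a, b, ha, hab⟩ : ∃ a b : F, a ≠ 0 ∧ D 0 = C a * X + C b := by
      refine ⟨(D 0).coeff 1, (D 0).coeff 0, ?_, Polynomial.eq_X_add_C_of_natDegree_le_one hlin.le⟩
      have h := Polynomial.leadingCoeff_ne_zero.2 (hirr 0).ne_zero
      rwa [Polynomial.leadingCoeff, hlin] at h
    have ha' : algebraMap F E a ≠ 0 := by
      rw [Ne, map_eq_zero]
      exact ha
    have h1 : ∀ t : E, g t = φ (chi (χ 0) (Algebra.norm F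
        (((Equiv.mulLeft₀ (algebraMap F E a) ha').trans
          (Equiv.addRight (algebraMap F E b))) t))) := by
      intro t
      change φ (chi (χ 0) (Algebra.norm F (aeval t (D 0)))) = _
      rw [hab]
      simp
    rw [Finset.sum_congr rfl fun t _ => h1 t]
    rw [Equiv.sum_comp ((Equiv.mulLeft₀ (algebraMap F E a) ha').trans
          (Equiv.addRight (algebraMap F E b))) fun t => φ (chi (χ 0) (Algebra.norm F t))]
    exact sum_psi φ (χ 0) E hE
  have hred : φ (liftSum χ D E) =
      ∑ y : Fin N → E, g (-∑ i, y i) * ∏ i, (if y i ∈ R i then (0 : L) else 1) := by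
    unfold liftSum
    rw [map_sum, ← (Fin.consEquiv fun _ => E).sum_comp, Fintype.sum_prod_type_right]
    refine Finset.sum_congr rfl fun y _ => ?_
    rw [Finset.sum_eq_single (-∑ i, y i)]
    · have h1 : ∑ i, (Fin.consEquiv fun _ => E) (-∑ i, y i, y) i = 0 := by
        rw [Fin.sum_univ_succ]
        simp [Fin.consEquiv]
      rw [if_pos h1, Fin.prod_univ_succ, map_mul, map_prod]
      have h2 : (Fin.consEquiv fun _ => E) (-∑ i, y i, y) 0 = -∑ i, y i := by
        simp [Fin.consEquiv]
      have h3 : ∀ i : Fin N, (Fin.consEquiv fun _ => E) (-∑ i, y i, y) i.succ = y i := by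
        intro i
        simp [Fin.consEquiv]
      rw [h2]
      congr 1
      refine Finset.prod_congr rfl fun i _ => ?_
      rw [h3]
      split_ifs with hi
      · rw [(hmem i (y i)).1 hi, Algebra.norm_zero, chi_zero, map_zero]
      · refine red_chi φ (hχ i) ?_
        intro h0
        exact hi ((hmem i (y i)).2 (Algebra.norm_eq_zero_iff.1 h0))
    · intro t _ ht
      rw [if_neg, map_zero]
      intro h0
      apply ht
      rw [Fin.sum_univ_succ] at h0
      simp only [Fin.consEquiv, Equiv.coe_fn_mk, Fin.cons_zero, Fin.cons_succ] at h0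
      exact eq_neg_of_add_eq_zero_left h0
    · intro h
      exact absurd (mem_univ _) h
  rw [map_mul, map_pow, map_neg, map_one, hred, compl_sum g hg R, Fintype.card_fin, ← mul_assoc]
  have h8 : ((-1 : L) ^ N) * ((-1) ^ N) = 1 := by
    rw [← pow_add, Even.neg_one_pow ⟨N, rfl⟩]
  rw [h8, one_mul]
  rfl

end

end Pool.Agent.LibSS99
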