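import Mathlib

set_option autoImplicit false

namespace Pool.Agent.LibSS99

open Finset Polynomial

variable {ι L : Type*} [Fintype ι] [DecidableEq ι] [Field L]

lemma sum_pow_primitive {n : ℕ} {ζ : L} (hζ : IsPrimitiveRoot ζ n) (r : ℕ) :
    ∑ k ∈ range n, (ζ ^ k) ^ r = if n ∣ r then (n : L) else 0 := by
  have h1 : ∀ k, (ζ ^ k) ^ r = (ζ ^ r) ^ k := fun k => by rw [← pow_mul, ← pow_mul, mul_comm]
  simp only [h1]
  split_ifs with h
  · rw [(hζ.pow_eq_one_iff_dvd r).2 h]
    simp
  · have h2 : ζ ^ r ≠ 1 := fun h3 => h ((hζ.pow_eq_one_iff_dvd r).1 h3)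
    rw [geom_sum_eq h2, ← pow_mul, mul_comm, pow_mul, hζ.pow_eq_one, one_pow, sub_self, zero_div]

/-- The products of roots of unity of coprime orders, one of them being `1`. -/
theorem exists_omega [IsAlgClosed L] (n : ι → ℕ) (hn : ∀ i, (n i : L) ≠ 0)
    (hcop : ∀ i j, i ≠ j → Nat.Coprime (n i) (n j)) :
    ∃ Ω : Finset L, (0 : L) ∉ Ω ∧ #Ω = ∏ i, n i - ∏ i, (n i - 1) ∧
      ∀ r, ∑ w ∈ Ω, w ^ r = ∏ i, (if n i ∣ r then (n i : L) else 0) -
        ∏ i, ((if n i ∣ r then (n i : L) else 0) - 1) := by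
  classical
  have hpos : ∀ i, 0 < n i := fun i => Nat.pos_of_ne_zero fun h => hn i (by rw [h, Nat.cast_zero])
  have hex : ∀ i, ∃ ζ : L, IsPrimitiveRoot ζ (n i) := by
    intro i
    have : NeZero (n i : L) := ⟨hn i⟩
    exact HasEnoughRootsOfUnity.exists_primitiveRoot L (n i)
  choose ζ hζ using hex
  have hζ0 : ∀ i, ζ i ≠ 0 := fun i => (hζ i).ne_zero (hpos i).ne'
  let A : Finset (ι → ℕ) := Fintype.piFinset fun i => range (n i)
  let B : Finset (ι → ℕ) := Fintype.piFinset fun i => (range (n i)).erase 0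
  let w : (ι → ℕ) → L := fun k => ∏ i, ζ i ^ k i
  have hBA : B ⊆ A := Fintype.piFinset_subset _ _ fun i => Finset.erase_subset _ _
  have hinj : Set.InjOn w A := by
    intro k hk k' hk' h
    funext j
    have hkj : k j < n j := Finset.mem_range.1 (Fintype.mem_piFinset.1 hk j)
    have hkj' : k' j < n j := Finset.mem_range.1 (Fintype.mem_piFinset.1 hk' j)
    let P := ∏ i ∈ univ.erase j, n i
    have hP : Nat.Coprime P (n j) :=
      Nat.Coprime.prod_left fun i hi => hcop i j (Finset.ne_of_mem_erase hi)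
    have h1 : ∀ k : ι → ℕ, w k ^ P = (ζ j ^ P) ^ k j := by
      intro k
      change (∏ i, ζ i ^ k i) ^ P = _
      rw [← Finset.prod_pow, ← Finset.mul_prod_erase _ _ (mem_univ j)]
      have h2 : ∏ i ∈ univ.erase j, (ζ i ^ k i) ^ P = 1 := by
        refine Finset.prod_eq_one fun i hi => ?_
        rw [← pow_mul, mul_comm, pow_mul]
        have h3 : ζ i ^ P = 1 := ((hζ i).pow_eq_one_iff_dvd P).2 (Finset.dvd_prod_of_mem _ hi)
        rw [h3, one_pow]
      rw [h2, mul_one, ← pow_mul, ← pow_mul, mul_comm]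
    have h4 : (ζ j ^ P) ^ k j = (ζ j ^ P) ^ k' j := by
      rw [← h1, ← h1, h]
    exact ((hζ j).pow_of_coprime P hP).pow_inj hkj hkj' h4
  refine ⟨(A \ B).image w, ?_, ?_, ?_⟩
  · intro h
    obtain ⟨k, -, hk⟩ := Finset.mem_image.1 h
    exact (Finset.prod_ne_zero_iff.2 fun i _ => pow_ne_zero _ (hζ0 i)) hk
  · rw [Finset.card_image_of_injOn (hinj.mono (by
      rw [Finset.coe_sdiff]; exact Set.sdiff_subset)), Finset.card_sdiff_of_subset hBA,
      Fintype.card_piFinset, Fintype.card_piFinset]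
    congr 1
    · exact Finset.prod_congr rfl fun i _ => Finset.card_range _
    · refine Finset.prod_congr rfl fun i _ => ?_
      rw [Finset.card_erase_of_mem (Finset.mem_range.2 (hpos i)), Finset.card_range]
  · intro r
    rw [Finset.sum_image (hinj.mono (by rw [Finset.coe_sdiff]; exact Set.sdiff_subset))]
    have h1 := Finset.sum_sdiff hBA (f := fun k => w k ^ r)
    have h2 : ∀ k, w k ^ r = ∏ i, (ζ i ^ k i) ^ r := by
      intro k
      change (∏ i, ζ i ^ k i) ^ r = _
      rw [← Finset.prod_pow]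
    have hA : ∑ k ∈ A, w k ^ r = ∏ i, (if n i ∣ r then (n i : L) else 0) := by
      simp only [h2]
      rw [← Finset.prod_univ_sum (fun i => range (n i)) (fun i k => (ζ i ^ k) ^ r)]
      exact Finset.prod_congr rfl fun i _ => sum_pow_primitive (hζ i) r
    have hB : ∑ k ∈ B, w k ^ r = ∏ i, ((if n i ∣ r then (n i : L) else 0) - 1) := by
      simp only [h2]
      rw [← Finset.prod_univ_sum (fun i => (range (n i)).erase 0) (fun i k => (ζ i ^ k) ^ r)]
      refine Finset.prod_congr rfl fun i _ => ?_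
      rw [Finset.sum_erase_eq_sub (Finset.mem_range.2 (hpos i)), sum_pow_primitive (hζ i) r]
      simp
    rw [hA, hB] at h1
    rw [← h1, add_sub_cancel_right]

end Pool.Agent.LibSS99
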