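import Mathlib

set_option autoImplicit false

namespace Pool.Agent.LibSS99

open Finset Polynomial Module

variable {K V : Type*} [Field K] [AddCommGroup V] [Module K V] [FiniteDimensional K V]

lemma trace_pow_of_nilpotent {g : End K V} {μ : K} (h : IsNilpotent (g - algebraMap K (End K V) μ))
    (r : ℕ) : LinearMap.trace K V (g ^ r) = (finrank K V : K) * μ ^ r := by
  have hc : Commute g (algebraMap K (End K V) μ) := (Algebra.commutes μ g).symm
  have h1 : IsNilpotent (g ^ r - (algebraMap K (End K V) μ) ^ r) := by
    rw [← hc.mul_geom_sum₂ r]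
    refine Commute.isNilpotent_mul_right ?_ h
    refine Commute.sum_right _ _ _ fun i _ => ?_
    refine Commute.mul_right (Commute.pow_right ?_ _) (Commute.pow_right ?_ _)
    · exact (Commute.refl g).sub_left (Algebra.commutes μ g)
    · exact (hc).sub_left (Commute.refl _)
  have h2 := (LinearMap.isNilpotent_trace_of_isNilpotent h1).eq_zero
  rw [map_sub, sub_eq_zero, ← map_pow, Algebra.algebraMap_eq_smul_one, map_smul,
    LinearMap.trace_one, smul_eq_mul] at h2
  rw [h2, mul_comm]

/-- The trace of a power is the sum of the powers of the eigenvalues. -/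
theorem trace_pow_eq [IsAlgClosed K] (f : End K V) (r : ℕ) :
    LinearMap.trace K V (f ^ r) = (f.charpoly.roots.map (fun μ => μ ^ r)).sum := by
  classical
  have hds := DirectSum.isInternal_submodule_of_iSupIndep_of_iSup_eq_top
      f.independent_maxGenEigenspace f.iSup_maxGenEigenspace_eq_top
  have h_fin : {μ | f.maxGenEigenspace μ ≠ ⊥}.Finite :=
      WellFoundedGT.finite_ne_bot_of_iSupIndep f.independent_maxGenEigenspace
  have hf : ∀ μ, Set.MapsTo (f ^ r) (f.maxGenEigenspace μ) (f.maxGenEigenspace μ) := fun μ =>
    f.mapsTo_maxGenEigenspace_of_comm (Commute.pow_right (Commute.refl f) r) μ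
  rw [LinearMap.trace_eq_sum_trace_restrict' hds h_fin hf]
  have h1 : ∀ μ, LinearMap.trace K (f.maxGenEigenspace μ) ((f ^ r).restrict (hf μ)) =
      (f.charpoly.rootMultiplicity μ : K) * μ ^ r := by
    intro μ
    have h2 := f.isNilpotent_restrict_maxGenEigenspace_sub_algebraMap μ
    have h3 : (f ^ r).restrict (hf μ) =
        (f.restrict (f.mapsTo_maxGenEigenspace_of_comm (Commute.refl f) μ)) ^ r := by
      rw [Module.End.pow_restrict]
    have h4 : IsNilpotent (f.restrict (f.mapsTo_maxGenEigenspace_of_comm (Commute.refl f) μ) -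
        algebraMap K (End K (f.maxGenEigenspace μ)) μ) := by
      convert h2 using 1
      refine LinearMap.ext fun x => Subtype.ext ?_
      simp [LinearMap.restrict_apply, Module.algebraMap_end_apply]
    rw [h3, trace_pow_of_nilpotent h4, LinearMap.finrank_maxGenEigenspace_eq]
  simp only [h1]
  rw [Finset.sum_multiset_map_count]
  simp only [count_roots, nsmul_eq_mul]
  refine Finset.sum_congr ?_ fun _ _ => rfl
  ext μ
  rw [Set.Finite.mem_toFinset, Multiset.mem_toFinset, mem_roots f.charpoly_monic.ne_zero,
    Set.mem_ofPred_eq, ← rootMultiplicity_pos f.charpoly_monic.ne_zero,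
    ← LinearMap.finrank_maxGenEigenspace_eq, pos_iff_ne_zero, ne_eq, ne_eq,
    Submodule.finrank_eq_zero]

end Pool.Agent.LibSS99
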