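import Pool.Agent.LibSS99.B
import Pool.Agent.LibSS99.C
import Pool.Agent.LibSS99.D
import Pool.Agent.LibSS99.I
import Pool.Agent.LibSS99.J
import Pool.Agent.LibSS99.K

set_option autoImplicit false

namespace Pool.Agent.LibSS99

open Finset Polynomial Module

universe u v

/-- The reduction argument: if all power sums of the eigenvalues of `Φ` are integral and reduce
to the power sums of the elements of a set of `finrank` nonzero elements, then the eigenvalues
are distinct. -/
theorem nodup_of_reduction {K : Type u} {W : Type v} [Field K] [CharZero K] [IsAlgClosed K]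
    [AddCommGroup W] [Module K W] [FiniteDimensional K W] (Φ : End K W)
    {L : Type*} [Field L] (φ : integralClosure ℤ K →+* L) (Ω : Finset L) (h0 : (0 : L) ∉ Ω)
    (hM : #Ω = finrank K W) (s : ℕ → integralClosure ℤ K)
    (hs : ∀ r, 0 < r → LinearMap.trace K W (Φ ^ r) = (s r : K))
    (hφ : ∀ r, 0 < r → φ (s r) = ∑ w ∈ Ω, w ^ r) : Φ.charpoly.roots.Nodup := by
  classical
  have hsp : Φ.charpoly.Splits := IsAlgClosed.splits _
  have hcard : Multiset.card Φ.charpoly.roots = #Ω := by
    rw [hM, ← LinearMap.charpoly_natDegree Φ]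
    exact (splits_iff_card_roots.1 hsp)
  obtain ⟨α, hα⟩ : ∃ α : Fin #Ω → K, (univ : Finset (Fin #Ω)).val.map α = Φ.charpoly.roots := by
    have hlen : Φ.charpoly.roots.toList.length = #Ω := by
      rw [Multiset.length_toList, hcard]
    refine ⟨fun i => Φ.charpoly.roots.toList.get (i.cast hlen.symm), ?_⟩
    rw [Fin.univ_val_map]
    conv_rhs => rw [← Multiset.coe_toList Φ.charpoly.roots]
    congr 1
    apply List.ext_get
    · simp [hcard]
    · intro n h1 h2
      simp
  have hsum : ∀ r, 0 < r → ∑ i, α i ^ r = (s r : K) := by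
    intro r hr
    rw [← hs r hr, trace_pow_eq, ← hα, Multiset.map_map]
    rfl
  have hint : ∀ i, IsIntegral ℤ (α i) := fun i =>
    integral_of_psum α (fun r hr => by rw [hsum r hr]; exact (s r).2) i
  let a : Fin #Ω → integralClosure ℤ K := fun i => ⟨α i, hint i⟩
  have ha : ∀ r, 0 < r → ∑ i, a i ^ r = s r := by
    intro r hr
    refine Subtype.ext ?_
    rw [AddSubmonoidClass.coe_finsetSum, ← hsum r hr]
    rfl
  have hinj : Function.Injective fun i => φ (a i) := by
    refine injective_of_psum (fun i => φ (a i)) Ω h0 rfl fun r hr => ?_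
    rw [← hφ r hr, ← ha r hr, map_sum]
    simp only [map_pow]
  have hαinj : Function.Injective α := by
    intro i j hij
    exact hinj (congrArg φ (Subtype.ext hij : a i = a j))
  rw [← hα]
  exact (Multiset.nodup_map_iff_of_injective hαinj).2 univ.nodup

/-- An endomorphism with distinct eigenvalues is diagonalisable. -/
theorem diagonalisable_of_nodup {K : Type u} {W : Type v} [Field K] [IsAlgClosed K]
    [AddCommGroup W] [Module K W] [FiniteDimensional K W] (Φ : End K W)
    (h : Φ.charpoly.roots.Nodup) : ⨆ μ, Φ.eigenspace μ = ⊤ := by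
  have hsep : Φ.charpoly.Separable :=
    (nodup_roots_iff_of_splits Φ.charpoly_monic.ne_zero (IsAlgClosed.splits _)).1 h
  have hss : Φ.IsSemisimple :=
    End.isSemisimple_of_squarefree_aeval_eq_zero hsep.squarefree (LinearMap.aeval_self_charpoly Φ)
  have h1 : ∀ μ, Φ.maxGenEigenspace μ = Φ.eigenspace μ := fun μ =>
    hss.isFinitelySemisimple.maxGenEigenspace_eq_eigenspace μ
  simp only [← h1]
  exact Φ.iSup_maxGenEigenspace_eq_top

end Pool.Agent.LibSS99
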