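import Mathlib

set_option autoImplicit false

namespace Pool.Agent.LibSS99

open Finset Polynomial

variable {K : Type*} [Field K] [CharZero K]

/-- If the powers of `x` have bounded denominators, `x` is integral. -/
theorem isIntegral_of_forall_pow {c : ℤ} (hc : c ≠ 0) {x : K}
    (h : ∀ m : ℕ, IsIntegral ℤ ((c : K) * x ^ m)) : IsIntegral ℤ x := by
  have hcK : (c : K) ≠ 0 := by exact_mod_cast hc
  have hcQ : (c : ℚ) ≠ 0 := by exact_mod_cast hc
  have hx : IsIntegral ℚ x := by
    have h1 : IsIntegral ℚ ((c : K) * x ^ 1) := (h 1).tower_top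
    have h2 : IsIntegral ℚ ((algebraMap ℚ K (c : ℚ)⁻¹) * ((c : K) * x ^ 1)) :=
      (isIntegral_algebraMap).mul h1
    have h3 : (algebraMap ℚ K (c : ℚ)⁻¹) * ((c : K) * x ^ 1) = x := by
      rw [map_inv₀, map_intCast, pow_one, ← mul_assoc, inv_mul_cancel₀ hcK, one_mul]
    rwa [h3] at h2
  let L := IntermediateField.adjoin ℚ {x}
  have : FiniteDimensional ℚ L := IntermediateField.adjoin.finiteDimensional hx
  have : NumberField L := ⟨⟩
  let y : L := IntermediateField.AdjoinSimple.gen ℚ x
  have hy : algebraMap L K y = x := IntermediateField.AdjoinSimple.algebraMap_gen ℚ x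
  have hinj : Function.Injective (algebraMap L K) := (algebraMap L K).injective
  have hint : ∀ m : ℕ, IsIntegral ℤ ((c : L) * y ^ m) := by
    intro m
    have h1 := h m
    rw [← hy] at h1
    have h2 : (c : K) * (algebraMap L K y) ^ m = algebraMap L K ((c : L) * y ^ m) := by
      rw [map_mul, map_pow, map_intCast]
    rw [h2] at h1
    exact (isIntegral_algebraMap_iff hinj).1 h1
  let B : Submodule ℤ L := (integralClosure ℤ L).toSubmodule
  have : IsNoetherian ℤ (integralClosure ℤ L) :=
    IsIntegralClosure.isNoetherian ℤ ℚ L (integralClosure ℤ L)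
  have hBn : IsNoetherian ℤ B := by
    exact inferInstanceAs (IsNoetherian ℤ (integralClosure ℤ L))
  let N : Submodule ℤ L := Submodule.span ℤ (Set.range fun m : ℕ => (c : L) * y ^ m)
  have hNB : N ≤ B := by
    rw [Submodule.span_le]
    rintro _ ⟨m, rfl⟩
    exact hint m
  have hNfg : N.FG := by
    have h1 : (N.comap B.subtype).FG := IsNoetherian.noetherian _
    have h2 := h1.map B.subtype
    rwa [Submodule.map_comap_subtype, inf_eq_right.2 hNB] at h2
  have hN0 : N ≠ ⊥ := by
    intro h0
    have h1 : (c : L) * y ^ 0 ∈ N := Submodule.subset_span ⟨0, rfl⟩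
    rw [h0, Submodule.mem_bot, pow_zero, mul_one] at h1
    exact hc (by exact_mod_cast h1)
  have hmul : ∀ n ∈ N, y • n ∈ N := by
    intro n hn
    refine Submodule.span_induction (p := fun n _ => y • n ∈ N) ?_ ?_ ?_ ?_ hn
    · rintro _ ⟨m, rfl⟩
      refine Submodule.subset_span ⟨m + 1, ?_⟩
      simp only [smul_eq_mul]
      ring
    · rw [smul_zero]; exact N.zero_mem
    · intro a b _ _ ha hb
      rw [smul_add]
      exact N.add_mem ha hb
    · intro k a _ ha
      rw [smul_comm]
      exact N.smul_mem k ha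
  have hyint : IsIntegral ℤ y := isIntegral_of_smul_mem_submodule N hN0 hNfg y hmul
  rw [← hy]
  exact (isIntegral_algebraMap_iff hinj).2 hyint

end Pool.Agent.LibSS99
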