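import Mathlib

set_option autoImplicit false

namespace Pool.Agent.LibSS99

open Finset

variable {ι E L : Type*} [Fintype ι] [DecidableEq ι] [Field E] [Fintype E] [DecidableEq E]
  [CommRing L]

/-- A sum over the hyperplane `∑ x i = 0`, one of the functions being `1`. -/
theorem hyper_sum (f : ι → E → L) (j : ι) (hj : ∀ t, f j t = 1) :
    (∑ x : ι → E, if ∑ i, x i = 0 then ∏ i, f i (x i) else 0) =
      ∏ i : {i // i ≠ j}, ∑ t, f i t := by
  rw [← (Equiv.funSplitAt j E).symm.sum_comp, Fintype.sum_prod_type_right]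
  have hval : ∀ (y : {i // i ≠ j} → E) (a : E) (i : ι) (hi : i ≠ j),
      (Equiv.funSplitAt j E).symm (a, y) i = y ⟨i, hi⟩ := by
    intro y a i hi
    simp [Equiv.funSplitAt, Equiv.piSplitAt, hi]
  have hvalj : ∀ (y : {i // i ≠ j} → E) (a : E), (Equiv.funSplitAt j E).symm (a, y) j = a := by
    intro y a
    simp [Equiv.funSplitAt, Equiv.piSplitAt]
  have h1 : ∀ y : {i // i ≠ j} → E,
      (∑ a : E, if ∑ i, (Equiv.funSplitAt j E).symm (a, y) i = 0
        then ∏ i, f i ((Equiv.funSplitAt j E).symm (a, y) i) else 0) =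
        ∏ i : {i // i ≠ j}, f i (y i) := by
    intro y
    have h2 : ∀ a : E, ∑ i, (Equiv.funSplitAt j E).symm (a, y) i = a + ∑ i, y i := by
      intro a
      rw [Fintype.sum_eq_add_sum_subtype_ne _ j, hvalj]
      congr 1
      exact Finset.sum_congr rfl fun i _ => hval y a i.1 i.2
    have h3 : ∀ a : E, ∏ i, f i ((Equiv.funSplitAt j E).symm (a, y) i) =
        ∏ i : {i // i ≠ j}, f i (y i) := by
      intro a
      rw [Fintype.prod_eq_mul_prod_subtype_ne _ j, hj, one_mul]
      refine Finset.prod_congr rfl fun i _ => ?_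
      rw [hval y a i.1 i.2]
    simp only [h2, h3]
    rw [Finset.sum_eq_single (-∑ i, y i)]
    · simp
    · intro a _ ha
      rw [if_neg]
      intro h
      exact ha (eq_neg_of_add_eq_zero_left h)
    · intro h
      exact absurd (mem_univ _) h
  rw [Finset.sum_congr rfl fun y _ => h1 y, Finset.prod_univ_sum, Fintype.piFinset_univ]

/-- The number of the points of the complement of the hyperplanes `x i = θ`, `θ ∈ R i`, in the
hyperplane `∑ x i = 0`, if `|E| = 1` in `L`. -/
theorem count_eq (R : ι → Finset E) (hE : (Fintype.card E : L) = 1)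
    (hR : ∀ x : ι → E, (∀ i, x i ∈ R i) → ∑ i, x i ≠ 0) :
    (∑ x : ι → E, if ∑ i, x i = 0 then ∏ i, (if x i ∈ R i then (0 : L) else 1) else 0) =
      ∏ i, (1 - (#(R i) : L)) - (-1) ^ Fintype.card ι * ∏ i, (#(R i) : L) := by
  let b : ι → E → L := fun i t => if t ∈ R i then 1 else 0
  have hb : ∀ i, ∑ t, b i t = (#(R i) : L) := by
    intro i
    simp [b]
  let T : Finset ι → L := fun t =>
    ∑ x : ι → E, if ∑ i, x i = 0 then ∏ i ∈ t, b i (x i) else 0
  have hT : ∀ t : Finset ι, t ≠ univ → T t = ∏ i ∈ t, (#(R i) : L) := by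
    intro t ht
    obtain ⟨j, hj⟩ : ∃ j, j ∉ t := by
      by_contra hcon
      push Not at hcon
      exact ht (Finset.eq_univ_iff_forall.2 hcon)
    have h1 := hyper_sum (fun i s => if i ∈ t then b i s else 1) j (fun s => by simp [hj])
    have h2 : ∀ x : ι → E, ∏ i, (if i ∈ t then b i (x i) else 1) = ∏ i ∈ t, b i (x i) := by
      intro x
      rw [Finset.prod_ite_mem, Finset.univ_inter]
    have h3 : ∏ i : {i // i ≠ j}, ∑ s, (if (i : ι) ∈ t then b i s else 1) =
        ∏ i ∈ t, (#(R i) : L) := by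
      have h4 : ∀ i : ι, ∑ s, (if i ∈ t then b i s else 1) = if i ∈ t then (#(R i) : L) else 1 := by
        intro i
        by_cases hi : i ∈ t
        · simp only [hi, if_true, hb]
        · simp only [hi, if_false, Finset.sum_const, Finset.card_univ, nsmul_eq_mul, mul_one, hE]
      rw [Finset.prod_congr rfl fun (i : {i // i ≠ j}) _ => h4 i]
      have h5 := Fintype.prod_eq_mul_prod_subtype_ne
        (fun i : ι => if i ∈ t then (#(R i) : L) else 1) j
      simp only [hj, if_false, one_mul] at h5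
      rw [← h5, Finset.prod_ite_mem, Finset.univ_inter]
    simp only [h2] at h1
    rw [h3] at h1
    exact h1
  have hTu : T univ = 0 := by
    refine Finset.sum_eq_zero fun x _ => ?_
    by_cases hx : ∑ i, x i = 0
    · rw [if_pos hx]
      by_contra hne
      refine hR x (fun i => ?_) hx
      by_contra hi
      exact hne (Finset.prod_eq_zero (mem_univ i) (by simp [b, hi]))
    · rw [if_neg hx]
  have hexp : (∑ x : ι → E, if ∑ i, x i = 0 then ∏ i, (if x i ∈ R i then (0 : L) else 1) else 0) =
      ∑ t : Finset ι, (-1) ^ #t * T t := by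
    have h1 : ∀ x : ι → E, ∏ i, (if x i ∈ R i then (0 : L) else 1) =
        ∑ t : Finset ι, (-1) ^ #t * ∏ i ∈ t, b i (x i) := by
      intro x
      have h2 : ∀ i, (if x i ∈ R i then (0 : L) else 1) = -b i (x i) + 1 := by
        intro i
        by_cases hi : x i ∈ R i <;> simp [b, hi]
      rw [Finset.prod_congr rfl fun i _ => h2 i, Fintype.prod_add]
      refine Finset.sum_congr rfl fun t _ => ?_
      rw [Finset.prod_const_one, mul_one, Finset.prod_neg]
    simp only [h1]
    simp only [T, Finset.mul_sum]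
    rw [Finset.sum_comm]
    refine Finset.sum_congr rfl fun x _ => ?_
    by_cases hx : ∑ i, x i = 0 <;> simp [hx]
  rw [hexp, ← Finset.add_sum_erase _ _ (mem_univ (univ : Finset ι)), hTu, mul_zero, zero_add]
  have h6 : ∏ i, (1 - (#(R i) : L)) = ∑ t : Finset ι, (-1) ^ #t * ∏ i ∈ t, (#(R i) : L) := by
    have h2 : ∀ i, (1 - (#(R i) : L)) = -(#(R i) : L) + 1 := fun i => by ring
    rw [Finset.prod_congr rfl fun i _ => h2 i, Fintype.prod_add]
    refine Finset.sum_congr rfl fun t _ => ?_
    rw [Finset.prod_const_one, mul_one, Finset.prod_neg]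
  rw [h6, ← Finset.add_sum_erase _ _ (mem_univ (univ : Finset ι)), Finset.card_univ,
    add_sub_cancel_left]
  refine Finset.sum_congr rfl fun t ht => ?_
  rw [hT t (Finset.ne_of_mem_erase ht)]

end Pool.Agent.LibSS99
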