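import Pool.Agent.LibSS99.P

set_option autoImplicit false

namespace Pool.Agent.LibSS99

open Finset Polynomial

/-- The set of the `n`-th roots of `c`. -/
theorem exists_omega_root {L : Type*} [Field L] [IsAlgClosed L] {n : ℕ} (hn : (n : L) ≠ 0)
    {c : L} (hc : c ≠ 0) :
    ∃ Ω : Finset L, (0 : L) ∉ Ω ∧ #Ω = n ∧
      ∀ r, ∑ w ∈ Ω, w ^ r = if n ∣ r then (n : L) * c ^ (r / n) else 0 := by
  classical
  have hpos : 0 < n := Nat.pos_of_ne_zero fun h => hn (by rw [h, Nat.cast_zero])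
  have : NeZero (n : L) := ⟨hn⟩
  obtain ⟨ζ, hζ⟩ := HasEnoughRootsOfUnity.exists_primitiveRoot L n
  obtain ⟨w₀, hw₀⟩ := IsAlgClosed.exists_pow_nat_eq c hpos
  have hw0 : w₀ ≠ 0 := by
    rintro rfl
    rw [zero_pow hpos.ne'] at hw₀
    exact hc hw₀.symm
  have hζ0 : ζ ≠ 0 := hζ.ne_zero hpos.ne'
  have hinj : Set.InjOn (fun k => w₀ * ζ ^ k) (range n) := by
    intro j hj k hk h
    exact hζ.pow_inj (Finset.mem_range.1 (Finset.mem_coe.1 hj))
      (Finset.mem_range.1 (Finset.mem_coe.1 hk)) (mul_left_cancel₀ hw0 h)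
  refine ⟨(range n).image fun k => w₀ * ζ ^ k, ?_, ?_, ?_⟩
  · intro h
    obtain ⟨k, -, hk⟩ := Finset.mem_image.1 h
    exact (mul_ne_zero hw0 (pow_ne_zero _ hζ0)) hk
  · rw [Finset.card_image_of_injOn hinj, Finset.card_range]
  · intro r
    rw [Finset.sum_image hinj]
    have h1 : ∀ k, (w₀ * ζ ^ k) ^ r = w₀ ^ r * (ζ ^ r) ^ k := fun k => by
      rw [mul_pow, ← pow_mul, ← pow_mul, mul_comm k r]
    simp only [h1]
    rw [← Finset.mul_sum]
    split_ifs with h
    · rw [(hζ.pow_eq_one_iff_dvd r).2 h]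
      obtain ⟨m, rfl⟩ := h
      rw [Nat.mul_div_cancel_left _ hpos, pow_mul, hw₀]
      simp [mul_comm]
    · have h2 : ζ ^ r ≠ 1 := fun h3 => h ((hζ.pow_eq_one_iff_dvd r).1 h3)
      rw [geom_sum_eq h2, ← pow_mul, mul_comm r, pow_mul, hζ.pow_eq_one, one_pow, sub_self,
        zero_div, mul_zero]

section

variable {F : Type} [Field F] [Fintype F] {L : Type*} [Field L]

/-- The sum over the tuples of roots. -/
theorem exists_c {N : ℕ} {D : Fin N → F[X]} (P : F[X]) (hirr : ∀ i, Irreducible (D i))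
    (hcop : ∀ i j, i ≠ j → Nat.Coprime (D i).natDegree (D j).natDegree)
    (ψ : F → L) (hψm : ∀ a n, ψ (a ^ n) = ψ a ^ n) (hψ0 : ∀ a, a ≠ 0 → ψ a ≠ 0)
    (hP : ∀ (E : Type) [Field E] [Fintype E] [DecidableEq E] [Algebra F E] (θ : Fin N → E),
      θ ∈ roo D E → aeval (-∑ i, θ i) P ≠ 0) :
    ∃ c : L, c ≠ 0 ∧ ∀ (E : Type) [Field E] [Fintype E] [DecidableEq E] [Algebra F E],
      ∑ θ ∈ roo D E, ψ (Algebra.norm F (aeval (-∑ i, θ i) P)) =
        if (∏ i, (D i).natDegree) ∣ Module.finrank F E then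
          ((∏ i, (D i).natDegree : ℕ) : L) * c ^ (Module.finrank F E / ∏ i, (D i).natDegree)
        else 0 := by
  classical
  obtain ⟨p, hp⟩ := CharP.exists F
  have : Fact p.Prime := ⟨CharP.char_is_prime F p⟩
  set n := ∏ i, (D i).natDegree with hn
  have hnpos : 0 < n := Finset.prod_pos fun i _ => (hirr i).natDegree_pos
  have : NeZero n := ⟨hnpos.ne'⟩
  let E₀ := FiniteField.Extension F p n
  let _ : Fintype E₀ := Fintype.ofFinite E₀
  have hE₀ : Module.finrank F E₀ = n := FiniteField.finrank_extension F p n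
  have hcard : ∀ (E : Type) [Field E] [Fintype E] [DecidableEq E] [Algebra F E],
      n ∣ Module.finrank F E → #(roo D E) = n := by
    intro E _ _ _ _ h
    rw [card_roo hirr]
    refine Finset.prod_congr rfl fun i _ => ?_
    rw [if_pos (dvd_trans (Finset.dvd_prod_of_mem _ (mem_univ i)) h)]
  obtain ⟨θ₀, hθ₀⟩ : (roo D E₀).Nonempty := by
    rw [← Finset.card_pos, hcard E₀ (by rw [hE₀])]
    exact hnpos
  refine ⟨ψ (Algebra.norm F (aeval (-∑ i, θ₀ i) P)), hψ0 _ ?_, ?_⟩
  · exact fun h => hP E₀ θ₀ hθ₀ (Algebra.norm_eq_zero_iff.1 h)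
  · intro E _ _ _ _
    split_ifs with h
    · obtain ⟨g⟩ := FiniteField.nonempty_algHom_of_finrank_dvd (F := F) (K := E₀) (L := E)
        (by rw [hE₀]; exact h)
      have hmem : (fun i => g (θ₀ i)) ∈ roo D E := by
        rw [mem_roo hirr] at hθ₀ ⊢
        intro i
        rw [Polynomial.aeval_algHom_apply, hθ₀ i, map_zero]
      have hnorm : Algebra.norm F (aeval (-∑ i, g (θ₀ i)) P) =
          Algebra.norm F (aeval (-∑ i, θ₀ i) P) ^ (Module.finrank F E / n) := by
        have h1 : -∑ i, g (θ₀ i) = g (-∑ i, θ₀ i) := by rw [map_neg, map_sum]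
        rw [h1, Polynomial.aeval_algHom_apply]
        generalize aeval (-∑ i, θ₀ i) P = z
        algebraize [g.toRingHom]
        have h2 : Module.finrank F E / n = Module.finrank E₀ E := by
          rw [← Module.finrank_mul_finrank F E₀ E, hE₀, Nat.mul_div_cancel_left _ hnpos]
        have h3 : Algebra.norm F (g z) = Algebra.norm F (Algebra.norm E₀ (algebraMap E₀ E z)) := by
          rw [Algebra.norm_norm]
          rfl
        rw [h3, Algebra.norm_algebraMap, map_pow, h2]
      have hall : ∀ θ ∈ roo D E, ψ (Algebra.norm F (aeval (-∑ i, θ i) P)) =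
          ψ (Algebra.norm F (aeval (-∑ i, θ₀ i) P)) ^ (Module.finrank F E / n) := by
        intro θ hθ
        rw [norm_eq P hirr hcop hmem hθ, hnorm, hψm]
      rw [Finset.sum_congr rfl hall, Finset.sum_const, hcard E h, nsmul_eq_mul]
    · have hempty : roo D E = ∅ := by
        rw [← Finset.card_eq_zero, card_roo hirr]
        by_contra hne
        apply h
        refine Finset.prod_dvd_of_isRelPrime
          (fun a _ b _ hab => Nat.coprime_iff_isRelPrime.1 (hcop a b hab)) fun i _ => ?_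
        by_contra hi
        exact hne (Finset.prod_eq_zero (mem_univ i) (if_neg hi))
      rw [hempty, Finset.sum_empty]

end

end Pool.Agent.LibSS99
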